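import Pool.Agent.V11234.AnyDim

set_option autoImplicit false

/-!
# Any-dimensional non-negativity of symmetric functions is undecidable

A real point all of whose coordinates are in `{0, 1, ..., K}` is described by the numbers `N_j` of
its coordinates which are equal to `j`, and these numbers are rational linear combinations of the
power sums. The coordinates are in `{0, 1, ..., K}` iff `Q = ∑ x_i ^ 2 (x_i - 1) ^ 2 ... (x_i - K) ^ 2`
vanishes. For a polynomial `D` with integer coefficients, the symmetric function
`D(N_1, ..., N_K) ^ 2 - 1 / 2 + M (1 + p_2) ^ E Q`, where `M` and `E` are large, takes negative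
values if `D` has a zero in `ℕ ^ K`, and is positive everywhere otherwise.
-/

namespace Pool.Agent.Results.MP_9c9736_lc.NonNegativity

open Pool.Agent.V11234.AnyDim

/-- No algorithm decides, for a polynomial `f` with rational coefficients in the power sums, whether
the symmetric function `f` is any-dimensional non-negative. Moreover, for some fixed degree `d`,
the set of the `f` of degree at most `d` which are any-dimensional non-negative is not even
recursively enumerable. -/
theorem result : (¬ ComputablePred NonNeg) ∧ ∃ d : ℕ, ¬ REPred fun f => DegLe d f ∧ NonNeg f :=
  hard NonNeg (fun _ h n x => (h n x).le) fun _ ⟨n, x, hx⟩ h => absurd (h n x) (not_le.2 hx)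

end Pool.Agent.Results.MP_9c9736_lc.NonNegativity
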